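import Mathlib
import Pool.Agent.V11218.LC1
import Pool.Agent.V11218.LC2
import Pool.Agent.V11218.LC4

set_option autoImplicit false

/-!
# The property (**) is not inherited by closed subspaces

`StarStar`, `IsBeta`, `IsCompactification`, `IsLarge`, `GdeltaClosed` are defined in
`Pool/Agent/V11218/LC1.lean`:

* `IsCompactification (e : X → K)`: `K` is compact Hausdorff, `e` is a topological embedding with
  dense range;
* `IsBeta (e : X → K)`: some homeomorphism `StoneCech X ≃ₜ K` carries `stoneCechUnit` to `e`;
* `IsLarge (e : X → K)`: for each open `V ⊆ K` containing the range of `e`, the inclusion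
  `V → K` satisfies `IsBeta`;
* `GdeltaClosed (e : X → K)`: each point outside the range of `e` lies in a `G_δ` set disjoint
  from the range;
* `StarStar X`: every large compactification of `X` in which `X` is `G_δ`-closed is `β X`.
-/

namespace Pool.Agent.Results.MP_d80aff_gt.ClosedSubspace

open Set Filter Topology Pool.Agent.V11218.LC

/-- There are a Tychonoff space `Z` satisfying (**) and a closed subspace `C` of `Z` that fails
(**). -/
theorem result : ∃ (Z : Type) (_ : TopologicalSpace Z), T35Space Z ∧ StarStar Z ∧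
    ∃ C : Set Z, IsClosed C ∧ ¬ StarStar C := by
  obtain ⟨R, hR2, hR⟩ := Pool.Agent.W642.HG.exists_bernstein
  have hemb := embedding_ee hR
  refine ⟨Pool.Agent.W642.HG.Pt R ⊕ N, inferInstance, ?_, starStar_sum _,
    range Sum.inl, isClosed_range_inl, ?_⟩
  · have h1 : IsEmbedding (Sum.elim (fun z => Sum.inl (ee (R := R) z))
        (fun x : N => Sum.inr x.1) : Pool.Agent.W642.HG.Pt R ⊕ N → KK R ⊕ (ℝ → Bool)) := by
      have a1 : closure (range fun z => (Sum.inl (ee (R := R) z) : KK R ⊕ (ℝ → Bool))) ⊆
          range Sum.inl :=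
        isClosed_range_inl.closure_subset_iff.2 (by rintro _ ⟨z, rfl⟩; exact ⟨_, rfl⟩)
      have a2 : closure (range fun x : N => (Sum.inr x.1 : KK R ⊕ (ℝ → Bool))) ⊆
          range Sum.inr :=
        isClosed_range_inr.closure_subset_iff.2 (by rintro _ ⟨z, rfl⟩; exact ⟨_, rfl⟩)
      refine isEmbedding_sumElim.2 ⟨IsEmbedding.inl.comp hemb,
        IsEmbedding.inr.comp IsEmbedding.subtypeVal, ?_, ?_⟩
      · rw [disjoint_left]
        rintro _ hx ⟨y, rfl⟩
        obtain ⟨z, hz⟩ := a1 hx
        cases hz
      · rw [disjoint_left]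
        rintro _ ⟨y, rfl⟩ hx
        obtain ⟨z, hz⟩ := a2 hx
        cases hz
    exact h1.t35Space
  · intro h
    have h1 : StarStar (Pool.Agent.W642.HG.Pt R) :=
      StarStar.of_homeo (IsEmbedding.inl (X := Pool.Agent.W642.HG.Pt R) (Y := N)).toHomeomorph h
    exact not_beta hR hR2 (h1 _ ee ⟨inferInstance, inferInstance, hemb, dense_ee⟩ (large hR)
      (gdelta_closed hR))

end Pool.Agent.Results.MP_d80aff_gt.ClosedSubspace
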